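import Mathlib

/-!
# SG51 GA: the polynomial algebra of the root (nodal case)

`x = A / P`, `y = B / P`, `P` monic of degree `M`, `P 0 = 0`, `A`, `B` of degree `M + 1`.  The numerator of the
derivative of `A / P` is `wr A P`.
-/

set_option autoImplicit false

open Polynomial Filter Topology

noncomputable section

namespace Pool.Agent.SG51

/-- the numerator of the derivative of `A / P` -/
def wr (A P : ℂ[X]) : ℂ[X] := derivative A * P - A * derivative P

/-- a power of the distance times a nonvanishing factor tends to `0` only if the exponent is positive -/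
theorem exponent_pos {r : ℂ} {e : ℝ} {h : ℂ → ℝ} {h₀ : ℝ} (hh : Tendsto h (𝓝[≠] r) (𝓝 h₀)) (h0 : 0 < h₀)
    (ht : Tendsto (fun u => ‖u - r‖ ^ e * h u) (𝓝[≠] r) (𝓝 0)) : 0 < e := by
  by_contra hcon
  push Not at hcon
  have h1 : ∀ᶠ u in 𝓝[≠] r, h₀ / 2 < h u := hh.eventually (lt_mem_nhds (by linarith))
  have h2 : ∀ᶠ u in 𝓝[≠] r, ‖u - r‖ ^ e * h u < h₀ / 2 := ht.eventually (gt_mem_nhds (by linarith))
  have h3 : ∀ᶠ u in 𝓝[≠] r, ‖u - r‖ < 1 := by
    have : ∀ᶠ u in 𝓝 r, ‖u - r‖ < 1 := by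
      have h5 : Tendsto (fun u : ℂ => ‖u - r‖) (𝓝 r) (𝓝 0) := by
        have : Continuous (fun u : ℂ => ‖u - r‖) := by fun_prop
        have h6 := this.tendsto r
        simpa using h6
      exact h5.eventually (gt_mem_nhds one_pos)
    exact this.filter_mono nhdsWithin_le_nhds
  have h4 : ∀ᶠ u in 𝓝[≠] r, u ≠ r := self_mem_nhdsWithin
  obtain ⟨u, hu1, hu2, hu3, hu4⟩ := (h1.and (h2.and (h3.and h4))).exists
  have hpos : 0 < ‖u - r‖ := norm_pos_iff.2 (sub_ne_zero.2 hu4)
  have h7 : 1 ≤ ‖u - r‖ ^ e := Real.one_le_rpow_of_pos_of_le_one_of_nonpos hpos hu3.le hcon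
  nlinarith

/-- factorisation at a point -/
theorem exists_factor {A : ℂ[X]} (hA : A ≠ 0) (r : ℂ) :
    ∃ A₁ : ℂ[X], A = (X - C r) ^ rootMultiplicity r A * A₁ ∧ A₁.eval r ≠ 0 := by
  obtain ⟨q, hq, hq2⟩ := exists_eq_pow_rootMultiplicity_mul_and_not_dvd A hA r
  exact ⟨q, hq, fun h => hq2 (dvd_iff_isRoot.2 h)⟩

theorem tendsto_norm_eval (A : ℂ[X]) (r : ℂ) : Tendsto (fun u => ‖A.eval u‖) (𝓝[≠] r) (𝓝 ‖A.eval r‖) := by
  have : Continuous (fun u => ‖A.eval u‖) := by fun_prop
  exact (this.tendsto r).mono_left nhdsWithin_le_nhds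

theorem dvd_of_tendsto {D P : ℂ[X]} (hP : P ≠ 0) {r : ℂ}
    (h : Tendsto (fun u => ‖D.eval u‖ / ‖P.eval u‖ ^ 2) (𝓝[≠] r) (𝓝 0)) :
    (X - C r) ^ (2 * rootMultiplicity r P + 1) ∣ D := by
  by_cases hD : D = 0
  · rw [hD]; exact dvd_zero _
  obtain ⟨D₁, hD1, hD2⟩ := exists_factor hD r
  obtain ⟨P₁, hP1, hP2⟩ := exists_factor hP r
  set d := rootMultiplicity r D with hd
  set m := rootMultiplicity r P with hm
  have key : 0 < ((d : ℝ) - 2 * m) := by
    have hh : Tendsto (fun u => ‖D₁.eval u‖ / ‖P₁.eval u‖ ^ 2) (𝓝[≠] r) (𝓝 (‖D₁.eval r‖ / ‖P₁.eval r‖ ^ 2)) :=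
      (tendsto_norm_eval D₁ r).div ((tendsto_norm_eval P₁ r).pow 2) (by positivity)
    refine exponent_pos hh (by positivity) (h.congr' ?_)
    have h4 : ∀ᶠ u in 𝓝[≠] r, u ≠ r := self_mem_nhdsWithin
    filter_upwards [h4] with u hu
    have hpos : 0 < ‖u - r‖ := norm_pos_iff.2 (sub_ne_zero.2 hu)
    have e1 : ‖D.eval u‖ = ‖u - r‖ ^ d * ‖D₁.eval u‖ := by
      conv_lhs => rw [hD1]
      simp
    have e2 : ‖P.eval u‖ = ‖u - r‖ ^ m * ‖P₁.eval u‖ := by
      conv_lhs => rw [hP1]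
      simp
    rw [e1, e2, Real.rpow_sub hpos, Real.rpow_natCast]
    have e3 : ‖u - r‖ ^ (2 * (m : ℝ)) = (‖u - r‖ ^ m) ^ 2 := by
      rw [← pow_mul, mul_comm m 2, ← Real.rpow_natCast]
      push_cast
      rfl
    rw [e3, mul_pow]
    rw [mul_div_mul_comm]
  have h5 : 2 * m + 1 ≤ d := by
    have : (2 * m : ℝ) < d := by linarith
    have h6 : 2 * m < d := by exact_mod_cast this
    omega
  calc (X - C r) ^ (2 * m + 1) ∣ (X - C r) ^ d := pow_dvd_pow _ h5
    _ ∣ D := by rw [hD1]; exact dvd_mul_right _ _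

theorem wr_factor {A P : ℂ[X]} (hA : A ≠ 0) (hP : P ≠ 0) {r : ℂ} (ham : rootMultiplicity r A < rootMultiplicity r P) :
    ∃ W₁ : ℂ[X], wr A P = (X - C r) ^ (rootMultiplicity r A + rootMultiplicity r P - 1) * W₁ ∧ W₁.eval r ≠ 0 := by
  obtain ⟨A₁, hA1, hA2⟩ := exists_factor hA r
  obtain ⟨P₁, hP1, hP2⟩ := exists_factor hP r
  set a := rootMultiplicity r A with ha
  set m := rootMultiplicity r P with hm
  obtain ⟨m', hm'⟩ : ∃ m', m = m' + 1 := ⟨m - 1, by omega⟩
  refine ⟨C ((a : ℂ) - m) * A₁ * P₁ + (X - C r) * (derivative A₁ * P₁ - A₁ * derivative P₁), ?_, ?_⟩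
  · rw [wr, hA1, hP1, hm']
    rcases Nat.eq_zero_or_pos a with h0 | h0
    · rw [h0]
      simp only [pow_zero, one_mul, Nat.cast_zero, zero_add, Nat.add_sub_cancel]
      rw [derivative_mul, derivative_pow, derivative_sub, derivative_X, derivative_C]
      simp only [Nat.add_sub_cancel, map_natCast, Nat.cast_add, Nat.cast_one, map_sub, map_add, map_one, map_zero]
      ring
    · obtain ⟨a', ha'⟩ : ∃ a', a = a' + 1 := ⟨a - 1, by omega⟩
      rw [ha']
      rw [derivative_mul, derivative_mul, derivative_pow, derivative_pow, derivative_sub, derivative_X, derivative_C]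
      have e : a' + 1 + (m' + 1) - 1 = a' + m' + 1 := by omega
      rw [e]
      simp only [Nat.add_sub_cancel, map_natCast, Nat.cast_add, Nat.cast_one, map_sub, map_add, map_one]
      ring
  · simp only [eval_add, eval_mul, eval_C, eval_sub, eval_X, sub_self, zero_mul, add_zero]
    have : ((a : ℂ) - m) ≠ 0 := by
      rw [sub_ne_zero]
      exact_mod_cast ham.ne
    exact mul_ne_zero (mul_ne_zero this hA2) hP2

theorem pole_ineq {A B P : ℂ[X]} (hA : A ≠ 0) (hB : B ≠ 0) (hP : P ≠ 0) {κ : ℝ} (hκ : 0 < κ) (hκ1 : κ < 1) {r : ℂ}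
    (ham : rootMultiplicity r A < rootMultiplicity r P)
    (h : Tendsto (fun u => (‖B.eval u‖ / ‖P.eval u‖) ^ (1 - κ) * (‖(wr A P).eval u‖ / ‖P.eval u‖ ^ 2)) (𝓝[≠] r) (𝓝 0)) :
    2 * rootMultiplicity r P + 2 ≤ rootMultiplicity r A + rootMultiplicity r B := by
  obtain ⟨B₁, hB1, hB2⟩ := exists_factor hB r
  obtain ⟨P₁, hP1, hP2⟩ := exists_factor hP r
  obtain ⟨W₁, hW1, hW2⟩ := wr_factor hA hP ham
  set a := rootMultiplicity r A with ha
  set b := rootMultiplicity r B with hb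
  set m := rootMultiplicity r P with hm
  have key : 0 < (1 - κ) * ((b : ℝ) - m) + ((a : ℝ) - m - 1) := by
    have hh : Tendsto (fun u => (‖B₁.eval u‖ / ‖P₁.eval u‖) ^ (1 - κ) * (‖W₁.eval u‖ / ‖P₁.eval u‖ ^ 2)) (𝓝[≠] r)
        (𝓝 ((‖B₁.eval r‖ / ‖P₁.eval r‖) ^ (1 - κ) * (‖W₁.eval r‖ / ‖P₁.eval r‖ ^ 2))) := by
      refine Tendsto.mul ?_ ((tendsto_norm_eval W₁ r).div ((tendsto_norm_eval P₁ r).pow 2) (by positivity))
      exact ((tendsto_norm_eval B₁ r).div (tendsto_norm_eval P₁ r) (by positivity)).rpow_const (Or.inl (by positivity))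
    refine exponent_pos hh (by positivity) (h.congr' ?_)
    have h4 : ∀ᶠ u in 𝓝[≠] r, u ≠ r := self_mem_nhdsWithin
    filter_upwards [h4] with u hu
    have hpos : 0 < ‖u - r‖ := norm_pos_iff.2 (sub_ne_zero.2 hu)
    have e1 : ‖B.eval u‖ = ‖u - r‖ ^ (b : ℝ) * ‖B₁.eval u‖ := by
      conv_lhs => rw [hB1]
      simp
    have e2 : ‖P.eval u‖ = ‖u - r‖ ^ (m : ℝ) * ‖P₁.eval u‖ := by
      conv_lhs => rw [hP1]
      simp
    have e3 : ‖(wr A P).eval u‖ = ‖u - r‖ ^ ((a : ℝ) + m - 1) * ‖W₁.eval u‖ := by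
      rw [hW1]
      simp only [eval_mul, eval_pow, eval_sub, eval_X, eval_C, norm_mul, norm_pow]
      congr 1
      rw [← Real.rpow_natCast]
      congr 1
      have : 1 ≤ a + m := by omega
      push_cast [Nat.cast_sub this]
      ring
    rw [e1, e2, e3]
    have f1 : (‖u - r‖ ^ (b : ℝ) * ‖B₁.eval u‖ / (‖u - r‖ ^ (m : ℝ) * ‖P₁.eval u‖)) ^ (1 - κ) =
        ‖u - r‖ ^ ((1 - κ) * ((b : ℝ) - m)) * (‖B₁.eval u‖ / ‖P₁.eval u‖) ^ (1 - κ) := by
      rw [mul_div_mul_comm, ← Real.rpow_sub hpos, Real.mul_rpow (by positivity) (by positivity), ← Real.rpow_mul hpos.le]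
      ring_nf
    have f2 : ‖u - r‖ ^ ((a : ℝ) + m - 1) * ‖W₁.eval u‖ / (‖u - r‖ ^ (m : ℝ) * ‖P₁.eval u‖) ^ 2 =
        ‖u - r‖ ^ ((a : ℝ) - m - 1) * (‖W₁.eval u‖ / ‖P₁.eval u‖ ^ 2) := by
      have : (‖u - r‖ ^ (m : ℝ) * ‖P₁.eval u‖) ^ 2 = ‖u - r‖ ^ (2 * (m : ℝ)) * ‖P₁.eval u‖ ^ 2 := by
        rw [mul_pow, mul_comm 2 (m : ℝ), Real.rpow_mul hpos.le]
        norm_num
      rw [this, mul_div_mul_comm, ← Real.rpow_sub hpos]
      ring_nf
    rw [f1, f2, Real.rpow_add hpos]
    ring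
  have h1 : (m : ℝ) + 1 - a < (1 - κ) * ((b : ℝ) - m) := by linarith
  have h2 : (a : ℝ) < m := by exact_mod_cast ham
  have h3 : 0 < (b : ℝ) - m := by
    by_contra hcon
    push Not at hcon
    have : (1 - κ) * ((b : ℝ) - m) ≤ 0 := mul_nonpos_of_nonneg_of_nonpos (by linarith) hcon
    linarith
  have h4 : (1 - κ) * ((b : ℝ) - m) ≤ (b : ℝ) - m := by nlinarith
  have h5 : (2 * m + 1 : ℝ) < a + b := by linarith
  have h6 : 2 * m + 1 < a + b := by exact_mod_cast h5
  omega

theorem dvd_of_roots {P D : ℂ[X]} (hP : P ≠ 0) (h0 : P.eval 0 = 0)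
    (h : ∀ r, P.eval r = 0 → (X - C r) ^ (2 * rootMultiplicity r P + 1) ∣ D) : P ^ 2 * X ∣ D := by
  classical
  by_cases hD : D = 0
  · rw [hD]; exact dvd_zero _
  have hne : P ^ 2 * X ≠ 0 := mul_ne_zero (pow_ne_zero _ hP) X_ne_zero
  rw [(IsAlgClosed.splits (P ^ 2 * X)).dvd_iff_roots_le_roots hne hD, Multiset.le_iff_count]
  intro r
  rw [count_roots, count_roots, rootMultiplicity_mul hne, pow_two, rootMultiplicity_mul (mul_ne_zero hP hP)]
  by_cases hr : P.eval r = 0
  · have h1 : 2 * rootMultiplicity r P + 1 ≤ rootMultiplicity r D := (le_rootMultiplicity_iff hD).2 (h r hr)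
    have h2 : rootMultiplicity r (X : ℂ[X]) ≤ 1 := by
      have := rootMultiplicity_X_sub_C (R := ℂ) (x := r) (y := 0)
      rw [map_zero, sub_zero] at this
      rw [this]
      split_ifs <;> simp
    omega
  · have h1 : rootMultiplicity r P = 0 := rootMultiplicity_eq_zero hr
    have h2 : rootMultiplicity r (X : ℂ[X]) = 0 := by
      apply rootMultiplicity_eq_zero
      intro h3
      rw [IsRoot, eval_X] at h3
      rw [h3] at hr
      exact hr h0
    omega

section final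

variable {A B P : ℂ[X]} {M : ℕ}

theorem one_le_of_root (hP : P.Monic) (hPd : P.natDegree = M) (h0 : P.eval 0 = 0) : 1 ≤ M := by
  by_contra hcon
  have : M = 0 := by omega
  rw [this] at hPd
  rw [hP.natDegree_eq_zero.1 hPd] at h0
  simp at h0

theorem natDegree_wr (hPd : P.natDegree ≤ M) (hA : A.natDegree ≤ M + 1) (hM : 1 ≤ M) : (wr A P).natDegree ≤ 2 * M := by
  have h1 : (derivative A).natDegree ≤ M := (natDegree_derivative_le A).trans (by omega)
  have h2 : (derivative P).natDegree ≤ M - 1 := (natDegree_derivative_le P).trans (by omega)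
  refine (natDegree_sub_le _ _).trans (max_le ?_ ?_)
  · exact (natDegree_mul_le_of_le h1 hPd).trans (by omega)
  · exact (natDegree_mul_le_of_le hA h2).trans (by omega)

theorem coeff_wr (hP : P.Monic) (hPd : P.natDegree = M) (hA : A.natDegree ≤ M + 1) (hM : 1 ≤ M) :
    (wr A P).coeff (2 * M) = A.coeff (M + 1) := by
  have h1 : (derivative A).natDegree ≤ M := (natDegree_derivative_le A).trans (by omega)
  have h2 : (derivative P).natDegree ≤ M - 1 := (natDegree_derivative_le P).trans (by omega)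
  have e1 : (derivative A * P).coeff (M + M) = (derivative A).coeff M * P.coeff M := coeff_mul_add_eq_of_natDegree_le h1 hPd.le
  have e2 : (A * derivative P).coeff ((M + 1) + (M - 1)) = A.coeff (M + 1) * (derivative P).coeff (M - 1) :=
    coeff_mul_add_eq_of_natDegree_le hA h2
  have e3 : P.coeff M = 1 := by rw [← hPd]; exact hP.coeff_natDegree
  obtain ⟨M', rfl⟩ : ∃ M', M = M' + 1 := ⟨M - 1, by omega⟩
  rw [wr, coeff_sub, show 2 * (M' + 1) = (M' + 1) + (M' + 1) by ring, e1]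
  rw [show (M' + 1) + (M' + 1) = ((M' + 1) + 1) + ((M' + 1) - 1) by omega, e2, coeff_derivative, coeff_derivative, e3]
  simp only [Nat.add_sub_cancel, e3]
  push_cast
  ring

/-- the smooth case: the derivative of `A / P` does not tend to zero at all the roots of `P` -/
theorem ga_smooth (hP : P.Monic) (hPd : P.natDegree = M) (h0 : P.eval 0 = 0) (hA : A.natDegree ≤ M + 1)
    (hα : A.coeff (M + 1) ≠ 0)
    (h : ∀ r, P.eval r = 0 → Tendsto (fun u => ‖(wr A P).eval u‖ / ‖P.eval u‖ ^ 2) (𝓝[≠] r) (𝓝 0)) : False := by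
  have hM := one_le_of_root hP hPd h0
  have hdvd : P ^ 2 * X ∣ wr A P := dvd_of_roots hP.ne_zero h0 fun r hr => dvd_of_tendsto hP.ne_zero (h r hr)
  have hne : wr A P ≠ 0 := by
    intro hw
    have := coeff_wr hP hPd hA hM
    rw [hw, coeff_zero] at this
    exact hα this.symm
  have h1 := natDegree_le_of_dvd hdvd hne
  have h2 := natDegree_wr hPd.le hA hM
  have h3 : (P ^ 2 * X).natDegree = 2 * M + 1 := by
    rw [natDegree_mul (pow_ne_zero _ hP.ne_zero) X_ne_zero, natDegree_pow, hPd, natDegree_X]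
  omega

theorem bounded_div (hA0 : A ≠ 0) (hP0 : P ≠ 0) {r : ℂ} (ham : rootMultiplicity r P ≤ rootMultiplicity r A) :
    ∃ K : ℝ, ∀ᶠ u in 𝓝[≠] r, ‖A.eval u‖ / ‖P.eval u‖ ≤ K := by
  obtain ⟨A₁, hA1, hA2⟩ := exists_factor hA0 r
  obtain ⟨P₁, hP1, hP2⟩ := exists_factor hP0 r
  obtain ⟨j, hj⟩ := Nat.exists_eq_add_of_le ham
  have hc : Tendsto (fun u => ‖u - r‖ ^ j * (‖A₁.eval u‖ / ‖P₁.eval u‖)) (𝓝[≠] r)
      (𝓝 (‖r - r‖ ^ j * (‖A₁.eval r‖ / ‖P₁.eval r‖))) := by
    refine Tendsto.mul ?_ ((tendsto_norm_eval A₁ r).div (tendsto_norm_eval P₁ r) (by positivity))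
    have : Continuous (fun u : ℂ => ‖u - r‖ ^ j) := by fun_prop
    exact (this.tendsto r).mono_left nhdsWithin_le_nhds
  refine ⟨‖r - r‖ ^ j * (‖A₁.eval r‖ / ‖P₁.eval r‖) + 1, ?_⟩
  have h4 : ∀ᶠ u in 𝓝[≠] r, u ≠ r := self_mem_nhdsWithin
  filter_upwards [hc.eventually (gt_mem_nhds (lt_add_one _)), h4] with u hu hu4
  have hpos : 0 < ‖u - r‖ := norm_pos_iff.2 (sub_ne_zero.2 hu4)
  refine le_of_eq_of_le ?_ hu.le
  have e1 : ‖A.eval u‖ = ‖u - r‖ ^ (rootMultiplicity r P + j) * ‖A₁.eval u‖ := by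
    conv_lhs => rw [hA1]
    rw [hj]
    simp
  have e2 : ‖P.eval u‖ = ‖u - r‖ ^ rootMultiplicity r P * ‖P₁.eval u‖ := by
    conv_lhs => rw [hP1]
    simp
  rw [e1, e2, pow_add, mul_assoc, mul_div_mul_left _ _ (by positivity), mul_div_assoc]

/-- the nodal case -/
theorem ga_node (hP : P.Monic) (hPd : P.natDegree = M) (h0 : P.eval 0 = 0) (hA : A.natDegree ≤ M + 1)
    (hα : A.coeff (M + 1) ≠ 0) (hB : B.natDegree ≤ M + 1) (hβ : B.coeff (M + 1) ≠ 0) {κ : ℝ} (hκ : 0 < κ) (hκ1 : κ < 1)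
    (h1 : ∀ r, P.eval r = 0 → Tendsto (fun u => (‖B.eval u‖ / ‖P.eval u‖) ^ (1 - κ) * (‖(wr A P).eval u‖ / ‖P.eval u‖ ^ 2))
      (𝓝[≠] r) (𝓝 0))
    (h2 : ∀ r, P.eval r = 0 → Tendsto (fun u => (‖A.eval u‖ / ‖P.eval u‖) ^ (1 - κ) * (‖(wr B P).eval u‖ / ‖P.eval u‖ ^ 2))
      (𝓝[≠] r) (𝓝 0)) :
    P = X ^ M ∧ A = C (A.coeff (M + 1)) * X ^ (M + 1) ∧ B = C (B.coeff (M + 1)) * X ^ (M + 1) := by
  classical
  have hM := one_le_of_root hP hPd h0
  have hP0 := hP.ne_zero
  have hA0 : A ≠ 0 := fun h => hα (by rw [h, coeff_zero])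
  have hB0 : B ≠ 0 := fun h => hβ (by rw [h, coeff_zero])
  -- divisibility
  have hstep : ∀ r, P.eval r = 0 → (X - C r) ^ (2 * rootMultiplicity r P + 1) ∣ wr A B := by
    intro r hr
    have hbig : 2 * rootMultiplicity r P + 2 ≤ rootMultiplicity r A + rootMultiplicity r B →
        (X - C r) ^ (2 * rootMultiplicity r P + 1) ∣ wr A B := by
      intro hab
      have dA : (X - C r) ^ rootMultiplicity r A ∣ A := pow_rootMultiplicity_dvd A r
      have dB : (X - C r) ^ rootMultiplicity r B ∣ B := pow_rootMultiplicity_dvd B r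
      have dA' := pow_sub_one_dvd_derivative_of_pow_dvd dA
      have dB' := pow_sub_one_dvd_derivative_of_pow_dvd dB
      refine (dvd_sub ?_ ?_)
      · refine (pow_dvd_pow _ ?_).trans ((pow_add (X - C r) _ _).symm ▸ mul_dvd_mul dA' dB)
        omega
      · refine (pow_dvd_pow _ ?_).trans ((pow_add (X - C r) _ _).symm ▸ mul_dvd_mul dA dB')
        omega
    rcases lt_or_ge (rootMultiplicity r A) (rootMultiplicity r P) with ham | ham
    · exact hbig (pole_ineq hA0 hB0 hP0 hκ hκ1 ham (h1 r hr))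
    rcases lt_or_ge (rootMultiplicity r B) (rootMultiplicity r P) with hbm | hbm
    · refine hbig ?_
      have := pole_ineq hB0 hA0 hP0 hκ hκ1 hbm (h2 r hr)
      omega
    obtain ⟨K, hK⟩ := bounded_div hA0 hP0 ham
    obtain ⟨L, hL⟩ := bounded_div hB0 hP0 hbm
    refine dvd_of_tendsto hP0 ?_
    have hlim : Tendsto (fun u => (max K 0) ^ κ * ((‖A.eval u‖ / ‖P.eval u‖) ^ (1 - κ) * (‖(wr B P).eval u‖ / ‖P.eval u‖ ^ 2)) +
        (max L 0) ^ κ * ((‖B.eval u‖ / ‖P.eval u‖) ^ (1 - κ) * (‖(wr A P).eval u‖ / ‖P.eval u‖ ^ 2))) (𝓝[≠] r) (𝓝 0) := by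
      have := ((h2 r hr).const_mul ((max K 0) ^ κ)).add ((h1 r hr).const_mul ((max L 0) ^ κ))
      simpa using this
    refine tendsto_of_tendsto_of_tendsto_of_le_of_le' tendsto_const_nhds hlim (Eventually.of_forall fun u => by positivity) ?_
    have h4 : ∀ᶠ u in 𝓝[≠] r, P.eval u ≠ 0 := by
      obtain ⟨P₁, hP1, hP2⟩ := exists_factor hP0 r
      have h5 : ∀ᶠ u in 𝓝[≠] r, P₁.eval u ≠ 0 := by
        have : Continuous (fun u => P₁.eval u) := by fun_prop
        exact (this.continuousAt.eventually_ne hP2).filter_mono nhdsWithin_le_nhds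
      have h6 : ∀ᶠ u in 𝓝[≠] r, u ≠ r := self_mem_nhdsWithin
      filter_upwards [h5, h6] with u hu5 hu6
      rw [hP1, eval_mul, eval_pow, eval_sub, eval_X, eval_C]
      exact mul_ne_zero (pow_ne_zero _ (sub_ne_zero.2 hu6)) hu5
    filter_upwards [hK, hL, h4] with u hu1 hu2 hu4
    have hPp : 0 < ‖P.eval u‖ := norm_pos_iff.2 hu4
    have e : P.eval u * (wr A B).eval u = B.eval u * (wr A P).eval u - A.eval u * (wr B P).eval u := by
      simp only [wr, eval_sub, eval_mul]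
      ring
    have f1 : ∀ x K : ℝ, 0 ≤ x → x ≤ K → x ≤ (max K 0) ^ κ * x ^ (1 - κ) := by
      intro x K hx hxK
      have h7 : x ^ κ ≤ (max K 0) ^ κ := Real.rpow_le_rpow hx (hxK.trans (le_max_left _ _)) hκ.le
      have h8 : x = x ^ κ * x ^ (1 - κ) := by
        rcases hx.eq_or_lt with h | h
        · rw [← h, Real.zero_rpow hκ.ne', zero_mul]
        · rw [← Real.rpow_add h]
          norm_num
      calc x = x ^ κ * x ^ (1 - κ) := h8
        _ ≤ _ := mul_le_mul_of_nonneg_right h7 (by positivity)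
    have g1 := f1 (‖A.eval u‖ / ‖P.eval u‖) K (by positivity) hu1
    have g2 := f1 (‖B.eval u‖ / ‖P.eval u‖) L (by positivity) hu2
    have e2 : ‖(wr A B).eval u‖ / ‖P.eval u‖ ^ 2 ≤
        (‖A.eval u‖ / ‖P.eval u‖) * (‖(wr B P).eval u‖ / ‖P.eval u‖ ^ 2) +
        (‖B.eval u‖ / ‖P.eval u‖) * (‖(wr A P).eval u‖ / ‖P.eval u‖ ^ 2) := by
      have h9 : ‖P.eval u‖ * ‖(wr A B).eval u‖ ≤ ‖B.eval u‖ * ‖(wr A P).eval u‖ + ‖A.eval u‖ * ‖(wr B P).eval u‖ := by
        rw [← norm_mul, e, ← norm_mul, ← norm_mul]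
        exact norm_sub_le _ _
      have h10 : (‖A.eval u‖ / ‖P.eval u‖) * (‖(wr B P).eval u‖ / ‖P.eval u‖ ^ 2) +
        (‖B.eval u‖ / ‖P.eval u‖) * (‖(wr A P).eval u‖ / ‖P.eval u‖ ^ 2) =
        (‖B.eval u‖ * ‖(wr A P).eval u‖ + ‖A.eval u‖ * ‖(wr B P).eval u‖) / ‖P.eval u‖ ^ 3 := by
        field_simp
        ring
      rw [h10, div_le_div_iff₀ (by positivity) (by positivity)]
      nlinarith [pow_pos hPp 2]
    refine e2.trans (add_le_add ?_ ?_)
    · rw [← mul_assoc]
      exact mul_le_mul_of_nonneg_right g1 (by positivity)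
    · rw [← mul_assoc]
      exact mul_le_mul_of_nonneg_right g2 (by positivity)
  have hdvd : P ^ 2 * X ∣ wr A B := dvd_of_roots hP0 h0 hstep
  -- degrees
  have hA' : (derivative A).natDegree ≤ M := (natDegree_derivative_le A).trans (by omega)
  have hB' : (derivative B).natDegree ≤ M := (natDegree_derivative_le B).trans (by omega)
  have hw0 : wr A B = 0 := by
    by_contra hne
    have h5 := natDegree_le_of_dvd hdvd hne
    have h3 : (P ^ 2 * X).natDegree = 2 * M + 1 := by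
      rw [natDegree_mul (pow_ne_zero _ hP0) X_ne_zero, natDegree_pow, hPd, natDegree_X]
    have h6 : (wr A B).natDegree ≤ 2 * M + 1 := by
      refine (natDegree_sub_le _ _).trans (max_le ?_ ?_)
      · exact (natDegree_mul_le_of_le hA' hB).trans (by omega)
      · exact (natDegree_mul_le_of_le hA hB').trans (by omega)
    have h7 : (wr A B).natDegree = 2 * M + 1 := by omega
    have h8 : (wr A B).coeff (2 * M + 1) = 0 := by
      have e1 : (derivative A * B).coeff (M + (M + 1)) = (derivative A).coeff M * B.coeff (M + 1) :=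
        coeff_mul_add_eq_of_natDegree_le hA' hB
      have e2 : (A * derivative B).coeff ((M + 1) + M) = A.coeff (M + 1) * (derivative B).coeff M :=
        coeff_mul_add_eq_of_natDegree_le hA hB'
      rw [wr, coeff_sub, show 2 * M + 1 = M + (M + 1) by ring, e1, show M + (M + 1) = (M + 1) + M by ring, e2,
        coeff_derivative, coeff_derivative]
      ring
    rw [← h7] at h8
    exact hne (leadingCoeff_eq_zero.1 h8)
  -- proportional
  set α := A.coeff (M + 1) with hαd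
  set β := B.coeff (M + 1) with hβd
  have hZ : C α * B - C β * A = 0 := by
    by_contra hne
    set Z := C α * B - C β * A with hZd
    have hZn : Z.natDegree ≤ M + 1 := by
      refine (natDegree_sub_le _ _).trans (max_le ?_ ?_)
      · exact (natDegree_C_mul_le _ _).trans hB
      · exact (natDegree_C_mul_le _ _).trans hA
    have hZc : Z.coeff (M + 1) = 0 := by
      rw [hZd, coeff_sub, coeff_C_mul, coeff_C_mul, ← hαd, ← hβd]
      ring
    have hd : Z.natDegree ≤ M := by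
      by_contra hcon
      have : Z.natDegree = M + 1 := by omega
      rw [← this] at hZc
      exact hne (leadingCoeff_eq_zero.1 hZc)
    have hwZ : wr A Z = 0 := by
      have : wr A Z = C α * wr A B := by
        rw [hZd]
        simp only [wr, derivative_sub, derivative_mul, derivative_C, zero_mul, zero_add]
        ring
      rw [this, hw0, mul_zero]
    have hz : Z.coeff Z.natDegree ≠ 0 := fun h => hne (leadingCoeff_eq_zero.1 h)
    have e1 : (derivative A * Z).coeff (M + Z.natDegree) = (derivative A).coeff M * Z.coeff Z.natDegree :=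
      coeff_mul_add_eq_of_natDegree_le hA' le_rfl
    rcases Nat.eq_zero_or_pos Z.natDegree with h00 | h00
    · have hdz : derivative Z = 0 := by
        rw [eq_C_of_natDegree_eq_zero h00, derivative_C]
      have h9 : (wr A Z).coeff (M + Z.natDegree) = (derivative A).coeff M * Z.coeff Z.natDegree := by
        rw [wr, hdz, mul_zero, sub_zero, e1]
      rw [hwZ, coeff_zero, coeff_derivative] at h9
      rcases mul_eq_zero.1 h9.symm with h10 | h10
      · rcases mul_eq_zero.1 h10 with h11 | h11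
        · exact hα h11
        · exact Nat.cast_add_one_ne_zero M h11
      · exact hz h10
    · have hZ' : (derivative Z).natDegree ≤ Z.natDegree - 1 := natDegree_derivative_le Z
      have e2 : (A * derivative Z).coeff ((M + 1) + (Z.natDegree - 1)) = A.coeff (M + 1) * (derivative Z).coeff (Z.natDegree - 1) :=
        coeff_mul_add_eq_of_natDegree_le hA hZ'
      have h9 : (wr A Z).coeff (M + Z.natDegree) =
          (derivative A).coeff M * Z.coeff Z.natDegree - A.coeff (M + 1) * (derivative Z).coeff (Z.natDegree - 1) := by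
        rw [wr, coeff_sub, e1, ← e2]
        congr 2
        omega
      rw [hwZ, coeff_zero, coeff_derivative, coeff_derivative, Nat.sub_add_cancel h00, ← hαd] at h9
      have h10 : α * Z.coeff Z.natDegree * ((M : ℂ) + 1 - Z.natDegree) = 0 := by
        have h12 : (((Z.natDegree - 1 : ℕ) : ℂ)) = (Z.natDegree : ℂ) - 1 := by
          push_cast [Nat.cast_sub h00]
          ring
        rw [h12] at h9
        linear_combination -h9
      have h11 : ((M : ℂ) + 1 - Z.natDegree) ≠ 0 := by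
        have h13 : ((M : ℂ) + 1 - Z.natDegree) = ((M + 1 - Z.natDegree : ℕ) : ℂ) := by
          push_cast [Nat.cast_sub hZn]
          ring
        rw [h13]
        have : M + 1 - Z.natDegree ≠ 0 := by omega
        exact_mod_cast this
      exact mul_ne_zero (mul_ne_zero hα hz) h11 h10
  set μ := β / α with hμ
  have hμ0 : μ ≠ 0 := div_ne_zero hβ hα
  have hBA : B = C μ * A := by
    have h5 : C α * B = C β * A := sub_eq_zero.1 hZ
    have h6 : C α⁻¹ * (C α * B) = C α⁻¹ * (C β * A) := by rw [h5]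
    rw [← mul_assoc, ← C_mul, inv_mul_cancel₀ hα, C_1, one_mul, ← mul_assoc, ← C_mul] at h6
    rw [h6, hμ, div_eq_mul_inv, mul_comm β]
  -- P divides A
  have hPA : P ∣ A := by
    rw [(IsAlgClosed.splits P).dvd_iff_roots_le_roots hP0 hA0, Multiset.le_iff_count]
    intro r
    rw [count_roots, count_roots]
    by_cases hr : P.eval r = 0
    · by_contra hcon
      push Not at hcon
      have h5 := pole_ineq hA0 hB0 hP0 hκ hκ1 hcon (h1 r hr)
      have h6 : rootMultiplicity r B = rootMultiplicity r A := by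
        rw [hBA, rootMultiplicity_mul (mul_ne_zero (C_ne_zero.2 hμ0) hA0), rootMultiplicity_C, zero_add]
      omega
    · rw [rootMultiplicity_eq_zero hr]
      exact Nat.zero_le _
  obtain ⟨L, hL⟩ := hPA
  have hL0 : L ≠ 0 := fun h => hA0 (by rw [hL, h, mul_zero])
  have hLd : L.natDegree ≤ 1 := by
    have : A.natDegree = P.natDegree + L.natDegree := by rw [hL, natDegree_mul hP0 hL0]
    omega
  have hLc : L.coeff 1 = α := by
    have : (P * L).coeff (M + 1) = P.coeff M * L.coeff 1 := coeff_mul_add_eq_of_natDegree_le hPd.le hLd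
    rw [← hL, ← hPd, hP.coeff_natDegree, one_mul, hPd] at this
    exact this.symm
  have hL' : derivative L = C α := by
    rw [eq_X_add_C_of_natDegree_le_one hLd, hLc]
    simp
  have hwAP : wr A P = C α * P ^ 2 := by
    rw [wr, hL, derivative_mul, hL']
    ring
  have hroot : ∀ r, P.eval r = 0 → L.eval r = 0 := by
    intro r hr
    have h5 := h1 r hr
    have h6 : Tendsto (fun u => (‖μ‖ * ‖L.eval u‖) ^ (1 - κ) * ‖α‖) (𝓝[≠] r) (𝓝 ((‖μ‖ * ‖L.eval r‖) ^ (1 - κ) * ‖α‖)) :=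
      (((tendsto_norm_eval L r).const_mul ‖μ‖).rpow_const (Or.inr (by linarith))).mul_const _
    have h7 : Tendsto (fun u => (‖μ‖ * ‖L.eval u‖) ^ (1 - κ) * ‖α‖) (𝓝[≠] r) (𝓝 0) := by
      refine h5.congr' ?_
      have h4 : ∀ᶠ u in 𝓝[≠] r, P.eval u ≠ 0 := by
        obtain ⟨P₁, hP1, hP2⟩ := exists_factor hP0 r
        have h5 : ∀ᶠ u in 𝓝[≠] r, P₁.eval u ≠ 0 := by
          have : Continuous (fun u => P₁.eval u) := by fun_prop
          exact (this.continuousAt.eventually_ne hP2).filter_mono nhdsWithin_le_nhds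
        have h6 : ∀ᶠ u in 𝓝[≠] r, u ≠ r := self_mem_nhdsWithin
        filter_upwards [h5, h6] with u hu5 hu6
        rw [hP1, eval_mul, eval_pow, eval_sub, eval_X, eval_C]
        exact mul_ne_zero (pow_ne_zero _ (sub_ne_zero.2 hu6)) hu5
      filter_upwards [h4] with u hu
      have hPp : 0 < ‖P.eval u‖ := norm_pos_iff.2 hu
      rw [hwAP, hBA, hL]
      simp only [eval_mul, eval_C, eval_pow, norm_mul, norm_pow]
      congr 1
      · congr 1
        field_simp
      · field_simp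
    have h8 := tendsto_nhds_unique h6 h7
    have h9 : (‖μ‖ * ‖L.eval r‖) ^ (1 - κ) = 0 := by
      rcases mul_eq_zero.1 h8 with h | h
      · exact h
      · exact absurd (norm_eq_zero.1 h) hα
    have h10 : ‖μ‖ * ‖L.eval r‖ = 0 := ((Real.rpow_eq_zero (by positivity) (by linarith)).1 h9)
    rcases mul_eq_zero.1 h10 with h | h
    · exact absurd (norm_eq_zero.1 h) hμ0
    · exact norm_eq_zero.1 h
  have hLX : L = C α * X := by
    have h5 : L = C α * X + C (L.coeff 0) := by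
      rw [← hLc]
      exact eq_X_add_C_of_natDegree_le_one hLd
    have h6 := hroot 0 h0
    rw [h5] at h6
    simp only [eval_add, eval_mul, eval_C, eval_X, mul_zero, zero_add] at h6
    rw [h5, h6, C_0, add_zero]
  have hPX : P = X ^ M := by
    have hr0 : ∀ r ∈ P.roots, r = 0 := by
      intro r hr
      have h5 := hroot r ((mem_roots hP0).1 hr)
      rw [hLX, eval_mul, eval_C, eval_X] at h5
      rcases mul_eq_zero.1 h5 with h | h
      · exact absurd h hα
      · exact h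
    have hcard : Multiset.card P.roots = M := by
      rw [← hPd]
      exact (IsAlgClosed.splits P).natDegree_eq_card_roots.symm
    have h6 : P.roots = Multiset.replicate M 0 := Multiset.eq_replicate.2 ⟨hcard, hr0⟩
    have h7 := (IsAlgClosed.splits P).eq_prod_roots_of_monic hP
    rw [h7, h6]
    simp
  refine ⟨hPX, ?_, ?_⟩
  · rw [hL, hPX, hLX]
    ring
  · rw [hBA, hL, hPX, hLX, hμ]
    rw [show (C (β / α) : ℂ[X]) * (X ^ M * (C α * X)) = (C (β / α) * C α) * X ^ (M + 1) by ring, ← C_mul,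
      div_mul_cancel₀ _ hα]

end final

end Pool.Agent.SG51
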