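import Pool.Agent.H48.GB
import Pool.Agent.H17BP.Surf
import Pool.Agent.SG51.GA

/-!
# SG51 GC: the limit of the rescaled curves in a chart, and the inequality of the maximum principle

`Res 𝒰 Φ ℓ x₀ m c lam P N`: the rescaled functions `Φ n (c n + lam n * u)` converge, in the sense of `H48.GB.scale`.
`Yn ℓ Φ n z = (ℓ (Φ n z))⁻¹ • Φ n z` is the normalised curve.
-/

set_option autoImplicit false
set_option linter.unusedSectionVars false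

open Topology Filter Metric

noncomputable section

namespace Pool.Agent.SG51

open Pool.Agent.H74.NB

variable {E : Type*} [NormedAddCommGroup E] [NormedSpace ℂ E] {𝒰 : Ultrafilter ℕ}

/-- derivatives converge -/
theorem cc_deriv [CompleteSpace E] {F : ℕ → ℂ → E} {f : ℂ → E} {Ω : Set ℂ}
    (hF : ∀ z₀ ∈ Ω, ∃ ε : ℝ, 0 < ε ∧ ball z₀ ε ⊆ Ω ∧ ∀ᶠ n in (𝒰 : Filter ℕ), DifferentiableOn ℂ (F n) (ball z₀ ε))
    (hf : DifferentiableOn ℂ f Ω) (h : CC 𝒰 F f Ω) : CC 𝒰 (fun n => deriv (F n)) (deriv f) Ω := by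
  intro z₀ hz₀ z hz
  obtain ⟨ε, hε, hs, hd⟩ := hF z₀ hz₀
  have h1 := CC.dslope hd (hf.mono hs) (h.mono hs) hz z₀ (mem_ball_self hε) z hz
  rw [dslope_same] at h1
  refine h1.congr fun n => ?_
  exact dslope_same (F n) (z n)

/-- the rescaled data -/
structure Res (𝒰 : Ultrafilter ℕ) (Φ : ℕ → ℂ → E) (ℓ : E →L[ℂ] ℂ) (x₀ : E) (w : ℂ) (r : ℝ) (m : ℕ) (c : ℕ → ℂ) (lam : ℕ → ℝ) (P : ℂ → ℂ)
    (N : ℂ → E) : Prop where
  r_pos : 0 < r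
  hol : ∀ᶠ n in (𝒰 : Filter ℕ), DifferentiableOn ℂ (Φ n) (ball w r)
  c_lim : Tendsto c 𝒰 (𝓝 w)
  pos : ∀ᶠ n in (𝒰 : Filter ℕ), 0 < lam n
  lim : Tendsto lam 𝒰 (𝓝 0)
  ℓx : ℓ x₀ = 1
  ccP : CC 𝒰 (fun n u => ((lam n : ℂ) ^ m)⁻¹ * ℓ (Φ n (c n + lam n * u))) P Set.univ
  ccN : CC 𝒰 (fun n u => ((lam n : ℂ) ^ (m + 1))⁻¹ • (Φ n (c n + lam n * u) - ℓ (Φ n (c n + lam n * u)) • x₀)) N Set.univ
  P_diff : Differentiable ℂ P
  N_diff : Differentiable ℂ N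

/-- the normalised curve -/
def Yn (ℓ : E →L[ℂ] ℂ) (Φ : ℕ → ℂ → E) (n : ℕ) (z : ℂ) : E := (ℓ (Φ n z))⁻¹ • Φ n z

section res

variable {Φ : ℕ → ℂ → E} {ℓ : E →L[ℂ] ℂ} {x₀ : E} {w : ℂ} {r : ℝ} {m : ℕ} {c : ℕ → ℂ} {lam : ℕ → ℝ} {P : ℂ → ℂ} {N : ℂ → E}

theorem Res.isOpen (h : Res 𝒰 Φ ℓ x₀ w r m c lam P N) : IsOpen {u | P u ≠ 0} :=
  isOpen_ne_fun h.P_diff.continuous continuous_const

theorem Res.tendsto_point (h : Res 𝒰 Φ ℓ x₀ w r m c lam P N) {u₀ : ℂ} {u : ℕ → ℂ} (hu : Tendsto u 𝒰 (𝓝 u₀)) :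
    Tendsto (fun n => c n + lam n * u n) 𝒰 (𝓝 w) := by
  have h1 : Tendsto (fun n => (lam n : ℂ) * u n) 𝒰 (𝓝 ((0 : ℂ) * u₀)) :=
    ((Complex.continuous_ofReal.tendsto' 0 0 (by simp)).comp h.lim).mul hu
  have := h.c_lim.add h1
  simpa using this

theorem Res.ne_zero (h : Res 𝒰 Φ ℓ x₀ w r m c lam P N) {u₀ : ℂ} (hu₀ : P u₀ ≠ 0) {u : ℕ → ℂ} (hu : Tendsto u 𝒰 (𝓝 u₀)) :
    ∀ᶠ n in (𝒰 : Filter ℕ), ℓ (Φ n (c n + lam n * u n)) ≠ 0 := by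
  filter_upwards [(h.ccP u₀ (Set.mem_univ _) u hu).eventually_ne hu₀] with n hn h0
  rw [h0, mul_zero] at hn
  exact hn rfl

/-- the displacement -/
theorem Res.ccρ (h : Res 𝒰 Φ ℓ x₀ w r m c lam P N) :
    CC 𝒰 (fun n u => (lam n : ℂ)⁻¹ • (Yn ℓ Φ n (c n + lam n * u) - x₀)) (fun u => (P u)⁻¹ • N u) {u | P u ≠ 0} := by
  intro u₀ hu₀ u hu
  have h1 := h.ccP u₀ (Set.mem_univ _) u hu
  have h2 := h.ccN u₀ (Set.mem_univ _) u hu
  refine ((h1.inv₀ hu₀).smul h2).congr' ?_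
  filter_upwards [h.pos, h.ne_zero hu₀ hu] with n h3 h4
  have h5 : (lam n : ℂ) ≠ 0 := by
    rw [Ne, Complex.ofReal_eq_zero]
    exact h3.ne'
  rw [Yn, smul_smul, smul_sub, smul_sub, smul_smul, smul_smul]
  congr 1
  · congr 1
    rw [pow_succ]
    field_simp
  · congr 1
    rw [pow_succ]
    field_simp

theorem Res.ccY (h : Res 𝒰 Φ ℓ x₀ w r m c lam P N) :
    CC 𝒰 (fun n u => Yn ℓ Φ n (c n + lam n * u)) (fun _ => x₀) {u | P u ≠ 0} := by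
  intro u₀ hu₀ u hu
  have h1 := h.ccρ u₀ hu₀ u hu
  have h2 : Tendsto (fun n => (lam n : ℂ)) 𝒰 (𝓝 0) := (Complex.continuous_ofReal.tendsto' 0 0 (by simp)).comp h.lim
  have h3 := (h2.smul h1).add_const x₀
  rw [zero_smul, zero_add] at h3
  refine h3.congr' ?_
  filter_upwards [h.pos] with n h3
  have h5 : (lam n : ℂ) ≠ 0 := by
    rw [Ne, Complex.ofReal_eq_zero]
    exact h3.ne'
  rw [smul_inv_smul₀ h5, sub_add_cancel]

/-- the limit in a chart -/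
theorem Res.ccQ (h : Res 𝒰 Φ ℓ x₀ w r m c lam P N) {F : Type*} [NormedAddCommGroup F] [NormedSpace ℂ F] {q : E → F}
    (hq : AnalyticAt ℂ q x₀) (hq0 : q x₀ = 0) :
    CC 𝒰 (fun n u => (lam n : ℂ)⁻¹ • q (Yn ℓ Φ n (c n + lam n * u))) (fun u => fderiv ℂ q x₀ ((P u)⁻¹ • N u)) {u | P u ≠ 0} := by
  intro u₀ hu₀ u hu
  have h1 := h.ccρ u₀ hu₀ u hu
  have h2 : HasFDerivWithinAt q (fderiv ℂ q x₀) Set.univ x₀ := hq.differentiableAt.hasFDerivAt.hasFDerivWithinAt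
  have h3 : Tendsto (fun n => ‖(lam n : ℂ)⁻¹‖) 𝒰 atTop := by
    have h4 : Tendsto lam 𝒰 (𝓝[>] 0) := tendsto_nhdsWithin_iff.2 ⟨h.lim, h.pos⟩
    refine (tendsto_inv_nhdsGT_zero.comp h4).congr' ?_
    filter_upwards [h.pos] with n hn
    rw [Function.comp_apply, norm_inv, Complex.norm_real, Real.norm_of_nonneg hn.le]
  have h0 : Tendsto (fun n => Yn ℓ Φ n (c n + lam n * u n) - x₀) 𝒰 (𝓝 0) := by
    have := (h.ccY u₀ hu₀ u hu).sub_const x₀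
    rwa [sub_self] at this
  have h5 := h2.lim (c := fun n => (lam n : ℂ)⁻¹) (d := fun n => Yn ℓ Φ n (c n + lam n * u n) - x₀) h0
    (Eventually.of_forall fun _ => Set.mem_univ _) h1
  refine h5.congr fun n => ?_
  rw [add_sub_cancel, hq0, sub_zero]

/-- the rescaled chart functions are differentiable -/
theorem Res.diffQ (h : Res 𝒰 Φ ℓ x₀ w r m c lam P N) {F : Type*} [NormedAddCommGroup F] [NormedSpace ℂ F] [CompleteSpace F] {q : E → F}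
    (hq : AnalyticAt ℂ q x₀) :
    ∀ z₀ ∈ {u | P u ≠ 0}, ∃ ε : ℝ, 0 < ε ∧ ball z₀ ε ⊆ {u | P u ≠ 0} ∧
      ∀ᶠ n in (𝒰 : Filter ℕ), DifferentiableOn ℂ (fun u => (lam n : ℂ)⁻¹ • q (Yn ℓ Φ n (c n + lam n * u))) (ball z₀ ε) := by
  intro z₀ hz₀
  obtain ⟨ε, hε, hs⟩ := Metric.isOpen_iff.1 h.isOpen z₀ hz₀
  have hK : closedBall z₀ (ε / 2) ⊆ {u | P u ≠ 0} := (closedBall_subset_ball (by linarith)).trans hs
  obtain ⟨δ, hδ, hqd⟩ := Metric.eventually_nhds_iff_ball.1 (hq.eventually_analyticAt)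
  have e1 : ∀ᶠ n in (𝒰 : Filter ℕ), ∀ u ∈ closedBall z₀ (ε / 2), ℓ (Φ n (c n + lam n * u)) ≠ 0 := by
    refine unif_of_seq (isCompact_closedBall _ _) fun y₀ hy₀ y _ hy => ?_
    exact (h.ne_zero (hK hy₀) hy).frequently
  have e2 : ∀ᶠ n in (𝒰 : Filter ℕ), ∀ u ∈ closedBall z₀ (ε / 2), Yn ℓ Φ n (c n + lam n * u) ∈ ball x₀ δ := by
    refine unif_of_seq (isCompact_closedBall _ _) fun y₀ hy₀ y _ hy => ?_
    exact ((h.ccY y₀ (hK hy₀) y hy).eventually (ball_mem_nhds x₀ hδ)).frequently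
  have e3 : ∀ᶠ n in (𝒰 : Filter ℕ), ∀ u ∈ closedBall z₀ (ε / 2), c n + lam n * u ∈ ball w r := by
    refine unif_of_seq (isCompact_closedBall _ _) fun y₀ hy₀ y _ hy => ?_
    exact ((h.tendsto_point hy).eventually (ball_mem_nhds w h.r_pos)).frequently
  refine ⟨ε / 2, by positivity, ball_subset_closedBall.trans hK, ?_⟩
  filter_upwards [e1, e2, e3, h.hol] with n h1 h2 h3 h4 u hu
  have hu' := ball_subset_closedBall hu
  have d1 : DifferentiableAt ℂ (fun u => Φ n (c n + lam n * u)) u :=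
    (h4.differentiableAt (isOpen_ball.mem_nhds (h3 u hu'))).comp u (by fun_prop)
  have d2 : DifferentiableAt ℂ (fun u => ℓ (Φ n (c n + lam n * u))) u := ℓ.differentiableAt.comp u d1
  have d3 : DifferentiableAt ℂ (fun u => Yn ℓ Φ n (c n + lam n * u)) u := (d2.inv (h1 u hu')).smul d1
  have d4 : DifferentiableAt ℂ q (Yn ℓ Φ n (c n + lam n * u)) := (hqd _ (h2 u hu')).differentiableAt
  exact ((d4.comp u d3).const_smul _).differentiableWithinAt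

theorem Res.ccQ' (h : Res 𝒰 Φ ℓ x₀ w r m c lam P N) {F : Type*} [NormedAddCommGroup F] [NormedSpace ℂ F] [CompleteSpace F] {q : E → F}
    (hq : AnalyticAt ℂ q x₀) (hq0 : q x₀ = 0) :
    CC 𝒰 (fun n u => deriv (fun z => q (Yn ℓ Φ n z)) (c n + lam n * u)) (deriv fun u => fderiv ℂ q x₀ ((P u)⁻¹ • N u))
      {u | P u ≠ 0} := by
  have h1 := cc_deriv (h.diffQ hq) (f := fun u => fderiv ℂ q x₀ ((P u)⁻¹ • N u)) (by
    intro u hu
    have d1 : DifferentiableAt ℂ (fun u => (P u)⁻¹ • N u) u := ((h.P_diff u).inv hu).smul (h.N_diff u)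
    exact ((fderiv ℂ q x₀).differentiableAt.comp u d1).differentiableWithinAt) (h.ccQ hq hq0)
  intro u₀ hu₀ u hu
  refine (h1 u₀ hu₀ u hu).congr' ?_
  filter_upwards [h.pos] with n hn
  have h5 : (lam n : ℂ) ≠ 0 := by
    rw [Ne, Complex.ofReal_eq_zero]
    exact hn.ne'
  have e1 : deriv (fun u => (lam n : ℂ)⁻¹ • q (Yn ℓ Φ n (c n + lam n * u))) (u n) =
      (lam n : ℂ)⁻¹ • deriv (fun u => q (Yn ℓ Φ n (c n + lam n * u))) (u n) := by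
    exact deriv_const_smul_field _ _
  have e2 : deriv (fun u => q (Yn ℓ Φ n (c n + lam n * u))) (u n) = (lam n : ℂ) • deriv (fun z => q (Yn ℓ Φ n z)) (c n + lam n * u n) := by
    have e3 := deriv_comp_mul_left (lam n : ℂ) (fun z => q (Yn ℓ Φ n (c n + z))) (u n)
    rw [e3]
    congr 1
    exact deriv_comp_const_add (f := fun z => q (Yn ℓ Φ n z)) (c n) (lam n * u n)
  rw [e1, e2, inv_smul_smul₀ h5]

end res

end Pool.Agent.SG51
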