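import Pool.Agent.SG51.GA

/-!
# SG Alg: step 4 of the plan of line G

`y = Y / P ^ d`, `P` monic of degree `M`, `P 0 = 0`, `Y` monic of degree `d * M + 1`.  If `‖y‖ ^ a * ‖y'‖ ≤ C * ‖P‖ ^ b` near the roots
of `P`, `a ≥ 0`, `b > 0`, then `P = X ^ M` and `Y = X ^ (d * M + 1)`.
-/

set_option autoImplicit false

open Polynomial Filter Topology

noncomputable section

namespace Pool.Agent.SG51

/-- the numerator of the derivative of `Y / P ^ d` -/
def wd (d : ℕ) (Y P : ℂ[X]) : ℂ[X] := derivative Y * P - C (d : ℂ) * (Y * derivative P)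

theorem deriv_div_pow {Y P : ℂ[X]} {d : ℕ} {u : ℂ} (hu : P.eval u ≠ 0) :
    deriv (fun u => Y.eval u / P.eval u ^ d) u = (wd d Y P).eval u / P.eval u ^ (d + 1) := by
  have h1 : HasDerivAt (fun u => Y.eval u) ((derivative Y).eval u) u := Y.hasDerivAt u
  have h2 : HasDerivAt (fun u => P.eval u ^ d) ((d : ℂ) * P.eval u ^ (d - 1) * (derivative P).eval u) u := (P.hasDerivAt u).pow d
  have h3 : HasDerivAt (fun u => Y.eval u / P.eval u ^ d) _ u := h1.div h2 (pow_ne_zero _ hu)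
  rw [h3.deriv]
  simp only [wd, eval_sub, eval_mul, eval_C]
  rcases Nat.eq_zero_or_pos d with h0 | h0
  · rw [h0]
    simp
    field_simp
  · obtain ⟨d', rfl⟩ : ∃ d', d = d' + 1 := ⟨d - 1, by omega⟩
    rw [Nat.add_sub_cancel]
    field_simp
    ring

theorem wd_factor {Y P : ℂ[X]} (hY : Y ≠ 0) (hP : P ≠ 0) {d : ℕ} {r : ℂ}
    (hlt : rootMultiplicity r Y < d * rootMultiplicity r P) (hm : 1 ≤ rootMultiplicity r P) :
    ∃ W₁ : ℂ[X], wd d Y P = (X - C r) ^ (rootMultiplicity r Y + rootMultiplicity r P - 1) * W₁ ∧ W₁.eval r ≠ 0 := by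
  obtain ⟨A₁, hA1, hA2⟩ := exists_factor hY r
  obtain ⟨P₁, hP1, hP2⟩ := exists_factor hP r
  set a := rootMultiplicity r Y with ha
  set m := rootMultiplicity r P with hmd
  obtain ⟨m', hm'⟩ : ∃ m', m = m' + 1 := ⟨m - 1, by omega⟩
  refine ⟨C ((a : ℂ) - d * m) * A₁ * P₁ + (X - C r) * (derivative A₁ * P₁ - C (d : ℂ) * (A₁ * derivative P₁)), ?_, ?_⟩
  · rw [wd, hA1, hP1, hm']
    rcases Nat.eq_zero_or_pos a with h0 | h0
    · rw [h0]
      simp only [pow_zero, one_mul, Nat.cast_zero, zero_add, Nat.add_sub_cancel]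
      rw [derivative_mul, derivative_pow, derivative_sub, derivative_X, derivative_C]
      simp only [Nat.add_sub_cancel, map_natCast, Nat.cast_add, Nat.cast_one, map_sub, map_add, map_one, map_zero, map_mul]
      ring
    · obtain ⟨a', ha'⟩ : ∃ a', a = a' + 1 := ⟨a - 1, by omega⟩
      rw [ha']
      rw [derivative_mul, derivative_mul, derivative_pow, derivative_pow, derivative_sub, derivative_X, derivative_C]
      have e : a' + 1 + (m' + 1) - 1 = a' + m' + 1 := by omega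
      rw [e]
      simp only [Nat.add_sub_cancel, map_natCast, Nat.cast_add, Nat.cast_one, map_sub, map_add, map_one, map_mul]
      ring
  · simp only [eval_add, eval_mul, eval_C, eval_sub, eval_X, sub_self, zero_mul, add_zero]
    have : ((a : ℂ) - d * m) ≠ 0 := by
      rw [sub_ne_zero]
      exact_mod_cast hlt.ne
    exact mul_ne_zero (mul_ne_zero this hA2) hP2

/-- `y = Y / P ^ d` has no pole at the root `r` of `P` -/
theorem le_mult {Y P : ℂ[X]} (hY : Y ≠ 0) (hP : P ≠ 0) {d : ℕ} {a b K : ℝ} {r : ℂ} (hr : P.eval r = 0) (ha : 0 ≤ a) (hb : 0 < b)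
    (h : ∀ᶠ u in 𝓝[≠] r, ‖Y.eval u / P.eval u ^ d‖ ^ a * ‖deriv (fun u => Y.eval u / P.eval u ^ d) u‖ ≤ K * ‖P.eval u‖ ^ b) :
    d * rootMultiplicity r P ≤ rootMultiplicity r Y := by
  by_contra hcon
  push Not at hcon
  have hm : 1 ≤ rootMultiplicity r P := (rootMultiplicity_pos hP).2 hr
  obtain ⟨Y₁, hY1, hY2⟩ := exists_factor hY r
  obtain ⟨P₁, hP1, hP2⟩ := exists_factor hP r
  obtain ⟨W₁, hW1, hW2⟩ := wd_factor hY hP hcon hm
  set q := rootMultiplicity r Y with hq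
  set p := rootMultiplicity r P with hp
  have key : 0 < a * ((q : ℝ) - d * p) + ((q : ℝ) - d * p - 1) := by
    have hh : Tendsto (fun u => (‖Y₁.eval u‖ / ‖P₁.eval u‖ ^ d) ^ a * (‖W₁.eval u‖ / ‖P₁.eval u‖ ^ (d + 1))) (𝓝[≠] r)
        (𝓝 ((‖Y₁.eval r‖ / ‖P₁.eval r‖ ^ d) ^ a * (‖W₁.eval r‖ / ‖P₁.eval r‖ ^ (d + 1)))) := by
      refine Tendsto.mul ?_ ((tendsto_norm_eval W₁ r).div ((tendsto_norm_eval P₁ r).pow (d + 1)) (by positivity))
      exact ((tendsto_norm_eval Y₁ r).div ((tendsto_norm_eval P₁ r).pow d) (by positivity)).rpow_const (Or.inl (by positivity))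
    refine exponent_pos hh (by positivity) ?_
    have hlim : Tendsto (fun u => K * ‖P.eval u‖ ^ b) (𝓝[≠] r) (𝓝 0) := by
      have h1 := ((tendsto_norm_eval P r).rpow_const (p := b) (Or.inr hb.le)).const_mul K
      rwa [hr, norm_zero, Real.zero_rpow hb.ne', mul_zero] at h1
    refine tendsto_of_tendsto_of_tendsto_of_le_of_le' tendsto_const_nhds hlim (Eventually.of_forall fun u => by positivity) ?_
    have h4 : ∀ᶠ u in 𝓝[≠] r, u ≠ r := self_mem_nhdsWithin
    have h5 : ∀ᶠ u in 𝓝[≠] r, P₁.eval u ≠ 0 := by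
      have : Continuous (fun u => P₁.eval u) := by fun_prop
      exact (this.continuousAt.eventually_ne hP2).filter_mono nhdsWithin_le_nhds
    filter_upwards [h4, h5, h] with u hu hu5 hu6
    have hpos : 0 < ‖u - r‖ := norm_pos_iff.2 (sub_ne_zero.2 hu)
    have hPu : P.eval u ≠ 0 := by
      rw [hP1, eval_mul, eval_pow, eval_sub, eval_X, eval_C]
      exact mul_ne_zero (pow_ne_zero _ (sub_ne_zero.2 hu)) hu5
    refine le_of_eq_of_le ?_ hu6
    rw [deriv_div_pow hPu]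
    have e1 : ‖Y.eval u‖ = ‖u - r‖ ^ (q : ℝ) * ‖Y₁.eval u‖ := by
      conv_lhs => rw [hY1]
      simp
    have e2 : ‖P.eval u‖ = ‖u - r‖ ^ (p : ℝ) * ‖P₁.eval u‖ := by
      conv_lhs => rw [hP1]
      simp
    have e3 : ‖(wd d Y P).eval u‖ = ‖u - r‖ ^ ((q : ℝ) + p - 1) * ‖W₁.eval u‖ := by
      rw [hW1]
      simp only [eval_mul, eval_pow, eval_sub, eval_X, eval_C, norm_mul, norm_pow]
      congr 1
      rw [← Real.rpow_natCast]
      congr 1
      have : 1 ≤ q + p := by omega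
      push_cast [Nat.cast_sub this]
      ring
    have e4 : ∀ k : ℕ, (‖u - r‖ ^ (p : ℝ) * ‖P₁.eval u‖) ^ k = ‖u - r‖ ^ ((k : ℝ) * p) * ‖P₁.eval u‖ ^ k := by
      intro k
      rw [mul_pow, mul_comm (k : ℝ) (p : ℝ), Real.rpow_mul hpos.le, Real.rpow_natCast, Real.rpow_natCast]
    rw [norm_div, norm_div, norm_pow, norm_pow, e1, e2, e3, e4, e4]
    have f1 : (‖u - r‖ ^ (q : ℝ) * ‖Y₁.eval u‖ / (‖u - r‖ ^ ((d : ℝ) * p) * ‖P₁.eval u‖ ^ d)) ^ a =
        ‖u - r‖ ^ (a * ((q : ℝ) - d * p)) * (‖Y₁.eval u‖ / ‖P₁.eval u‖ ^ d) ^ a := by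
      rw [mul_div_mul_comm, ← Real.rpow_sub hpos, Real.mul_rpow (by positivity) (by positivity), ← Real.rpow_mul hpos.le]
      ring_nf
    have f2 : ‖u - r‖ ^ ((q : ℝ) + p - 1) * ‖W₁.eval u‖ / (‖u - r‖ ^ (((d + 1 : ℕ) : ℝ) * p) * ‖P₁.eval u‖ ^ (d + 1)) =
        ‖u - r‖ ^ ((q : ℝ) - d * p - 1) * (‖W₁.eval u‖ / ‖P₁.eval u‖ ^ (d + 1)) := by
      rw [mul_div_mul_comm, ← Real.rpow_sub hpos]
      push_cast
      ring_nf
    rw [f1, f2, Real.rpow_add hpos]
    ring
  have h1 : (q : ℝ) < d * p := by exact_mod_cast hcon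
  nlinarith

/-- **Step 4.** -/
theorem alg {P Y : ℂ[X]} {M d : ℕ} (hP : P.Monic) (hPd : P.natDegree = M) (h0 : P.eval 0 = 0) (hY : Y.Monic) (hYd : Y.natDegree = d * M + 1)
    {a b : ℝ} (ha : 0 ≤ a) (hb : 0 < b)
    (h : ∀ r, P.eval r = 0 → ∃ K : ℝ, ∀ᶠ u in 𝓝[≠] r,
      ‖Y.eval u / P.eval u ^ d‖ ^ a * ‖deriv (fun u => Y.eval u / P.eval u ^ d) u‖ ≤ K * ‖P.eval u‖ ^ b) :
    P = X ^ M ∧ Y = X ^ (d * M + 1) := by
  classical
  have hP0 := hP.ne_zero
  have hY0 := hY.ne_zero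
  have hdvd : P ^ d ∣ Y := by
    rw [(IsAlgClosed.splits (P ^ d)).dvd_iff_roots_le_roots (pow_ne_zero _ hP0) hY0, Multiset.le_iff_count]
    intro r
    rw [roots_pow, Multiset.count_nsmul, count_roots, count_roots]
    by_cases hr : P.eval r = 0
    · obtain ⟨K, hK⟩ := h r hr
      exact le_mult (K := K) hY0 hP0 hr ha hb hK
    · rw [rootMultiplicity_eq_zero hr, mul_zero]
      exact Nat.zero_le _
  obtain ⟨L, hL⟩ := hdvd
  have hPdm : (P ^ d).Monic := hP.pow d
  have hLm : L.Monic := hPdm.of_mul_monic_left (by rw [← hL]; exact hY)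
  have hLd : L.natDegree = 1 := by
    have h1 : Y.natDegree = (P ^ d).natDegree + L.natDegree := by rw [hL, hPdm.natDegree_mul hLm]
    rw [hP.natDegree_pow, hPd, hYd] at h1
    omega
  have hLX : L = X + C (L.coeff 0) := by
    have h1 := eq_X_add_C_of_natDegree_le_one hLd.le
    have h2 : L.coeff 1 = 1 := by rw [← hLd]; exact hLm.coeff_natDegree
    rw [h2, C_1, one_mul] at h1
    exact h1
  have hroot : ∀ r, P.eval r = 0 → r + L.coeff 0 = 0 := by
    intro r hr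
    obtain ⟨K, hK⟩ := h r hr
    have hne : ∀ᶠ u in 𝓝[≠] r, P.eval u ≠ 0 := by
      obtain ⟨P₁, hP1, hP2⟩ := exists_factor hP0 r
      have h5 : ∀ᶠ u in 𝓝[≠] r, P₁.eval u ≠ 0 := by
        have : Continuous (fun u => P₁.eval u) := by fun_prop
        exact (this.continuousAt.eventually_ne hP2).filter_mono nhdsWithin_le_nhds
      have h6 : ∀ᶠ u in 𝓝[≠] r, u ≠ r := self_mem_nhdsWithin
      filter_upwards [h5, h6] with u hu5 hu6
      rw [hP1, eval_mul, eval_pow, eval_sub, eval_X, eval_C]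
      exact mul_ne_zero (pow_ne_zero _ (sub_ne_zero.2 hu6)) hu5
    have hev : ∀ u, P.eval u ≠ 0 → Y.eval u / P.eval u ^ d = u + L.coeff 0 := by
      intro u hu
      rw [hL, eval_mul, eval_pow, hLX]
      simp only [eval_add, eval_X, eval_C, coeff_add, coeff_X_zero, coeff_C_zero, zero_add]
      field_simp
    have hbd : ∀ᶠ u in 𝓝[≠] r, ‖u + L.coeff 0‖ ^ a ≤ K * ‖P.eval u‖ ^ b := by
      have hne' : ∀ᶠ u in 𝓝[≠] r, ∀ᶠ v in 𝓝 u, P.eval v ≠ 0 := by
        filter_upwards [hne] with u hu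
        have : Continuous (fun u => P.eval u) := by fun_prop
        exact this.continuousAt.eventually_ne hu
      filter_upwards [hK, hne, hne'] with u h1 h2 h3
      rw [hev u h2] at h1
      have h4 : deriv (fun u => Y.eval u / P.eval u ^ d) u = 1 := by
        have h5 : (fun u => Y.eval u / P.eval u ^ d) =ᶠ[𝓝 u] fun v => v + L.coeff 0 := by
          filter_upwards [h3] with v hv
          exact hev v hv
        rw [h5.deriv_eq]
        simp
      rwa [h4, norm_one, mul_one] at h1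
    have hlim : Tendsto (fun u => K * ‖P.eval u‖ ^ b) (𝓝[≠] r) (𝓝 0) := by
      have h1 := ((tendsto_norm_eval P r).rpow_const (p := b) (Or.inr hb.le)).const_mul K
      rwa [hr, norm_zero, Real.zero_rpow hb.ne', mul_zero] at h1
    have hz : Tendsto (fun u : ℂ => ‖u + L.coeff 0‖ ^ a) (𝓝[≠] r) (𝓝 0) :=
      tendsto_of_tendsto_of_tendsto_of_le_of_le' tendsto_const_nhds hlim (Eventually.of_forall fun u => by positivity) hbd
    have hc : Tendsto (fun u : ℂ => ‖u + L.coeff 0‖ ^ a) (𝓝[≠] r) (𝓝 (‖r + L.coeff 0‖ ^ a)) := by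
      have h1 : Continuous (fun u : ℂ => ‖u + L.coeff 0‖) := by fun_prop
      exact ((h1.tendsto r).mono_left nhdsWithin_le_nhds).rpow_const (Or.inr ha)
    have h1 := tendsto_nhds_unique hc hz
    rcases ha.eq_or_lt with h2 | h2
    · rw [← h2, Real.rpow_zero] at h1
      exact absurd h1 one_ne_zero
    · exact norm_eq_zero.1 ((Real.rpow_eq_zero (norm_nonneg _) h2.ne').1 h1)
  have hc0 : L.coeff 0 = 0 := by
    have := hroot 0 h0
    rwa [zero_add] at this
  have hLX' : L = X := by rw [hLX, hc0, C_0, add_zero]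
  have hPX : P = X ^ M := by
    have hr0 : ∀ r ∈ P.roots, r = 0 := by
      intro r hr
      have h5 := hroot r ((mem_roots hP0).1 hr)
      rwa [hc0, add_zero] at h5
    have hcard : Multiset.card P.roots = M := by
      rw [← hPd]
      exact (IsAlgClosed.splits P).natDegree_eq_card_roots.symm
    have h6 : P.roots = Multiset.replicate M 0 := Multiset.eq_replicate.2 ⟨hcard, hr0⟩
    have h7 := (IsAlgClosed.splits P).eq_prod_roots_of_monic hP
    rw [h7, h6]
    simp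
  refine ⟨hPX, ?_⟩
  rw [hL, hLX', hPX, ← pow_mul, ← pow_succ, mul_comm M d]

end Pool.Agent.SG51
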